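import Pool.Agent.H14.LB.Stmt

/-!
# Vojta's inequality for the algebraic points of varieties over abelian varieties, locally
-/

set_option autoImplicit false

open MvPolynomial Pool.Agent.TH954.X

namespace Pool.Agent.Results.MP_9b9442_nt.LocalExceptions

open Pool.Agent.H14.LB.S

/-- Let `B = ∏ A b` be a product of abelian varieties over the number field `K`, `X` a closed subset
of `ℙ × B` and `W` a closed subscheme whose intersection with `X` has an image of codimension at
least two in `B`. Let `ε > 0`. There are `D`, `δ > 0` and `C` such that, for each extension field `Ω`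
of `K` (for instance an algebraic closure) and each point `P0` of `B(Ω)`, there is a form `H` over
`Ω`, of multidegree at most `D` and not identically zero on `B`, which vanishes at all algebraic
points `P` of `B` with `h(P - P0) ≤ δ h(P0)` over which there is an algebraic point `x` of `X` which
is in `W` or does not satisfy `h_W(x) ≤ ε h(P) + C`. Here `P` and `x` are points over an arbitrary
number field `L` containing `K`, embedded in `Ω`, and the heights are divided by the degree of `L`.
Moreover, products of elliptic curves are examples. -/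
theorem result :
    (∀ (K : Type) [Field K] [NumberField K] (n β : ℕ) (A : Fin β → AbV K n), DimensionLe A →
      ∀ X W : Eqs K n β, ImageCodim A X W 2 → ∀ ε : ℝ, 0 < ε →
      ∃ (D : ℕ) (δ C : ℝ), 0 < δ ∧ ∀ (Ω : Type) [Field Ω] [Algebra K Ω] (P0 : Pts A Ω),
        ∃ (H : MvPolynomial (Fin β × Fin n) Ω) (σ : Fin β → ℕ), MH σ H ∧ (∀ b, σ b ≤ D) ∧
          NonzeroOn A H ∧
          ∀ (L : Type) [Field L] [NumberField L] [Algebra K L] (φ : L →ₐ[K] Ω) (P0' P : Pts A L),
            (∀ b c, φ (crds P0' b c) = crds P0 b c) → height (P - P0') ≤ δ * height P0' →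
            Exceptional X W ε C P → ev H (fun b c => φ (crds P b c)) = 0) ∧
    ∀ (K : Type) [Field K] [NumberField K] (n : ℕ), 3 ≤ n → ∀ (β : ℕ) (a b : Fin β → K),
      (∀ i, 4 * a i ^ 3 + 27 * b i ^ 2 ≠ 0) →
      ∃ A : Fin β → AbV K n, DimensionLe A ∧ ∀ i, IsWeierstrass (A i) (a i) (b i) :=
  ⟨fun K _ _ n β A hA X W hc ε hε => locS K n β A hA X W hc ε hε,
    fun K _ _ n hn β a b hd => exS K n hn β a b hd⟩

end Pool.Agent.Results.MP_9b9442_nt.LocalExceptions
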