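import Pool.Agent.H14.PL.S2

/-!
# The number of exceptions to Vojta's inequality over a finitely generated group of points
-/

set_option autoImplicit false

open MvPolynomial Pool.Agent.TH954.X

namespace Pool.Agent.Results.MP_9b9442_nt.PolylogExceptions

open Pool.Agent.H14.LB.S Pool.Agent.H14.PL.S

/-- Let `B = ∏ A b` be a product of abelian varieties over the number field `K`, `X` a closed subset
of `ℙ × B` and `W` a closed subscheme whose intersection with `X` has an image of codimension at
least two in `B`. Let `ε > 0`. There are constants `C`, `c` and `κ` such that the following holds for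
each number field `L` containing `K`, with an embedding `φ` into the algebraic closure of `K`, each
finitely generated subgroup `Γ` of `B(L)` and each `T ≥ 1`. Let `M = c ^ (1 + rank Γ) (1 + log T)`. Let
`E` be the set of the points `P` of `Γ` of height at most `T` over which there is a point `x` of `X`,
over some number field `L'` containing `L`, which is in `W` or does not satisfy
`h_W(x) ≤ ε h(P) + C`.

(1) There is a form `H` over `L`, of multidegree at most `M` and not identically zero on `B`, which
vanishes at all points of `E`; and there is a set `Z` of at most `M ^ κ` points of `Γ` such that each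
point `P` of `E` satisfies `h(P - z) ≤ C` for some `z` in `Z`, or there is a point `u` of `B` of
infinite order, over the algebraic closure, such that `H` vanishes at `P + m u` for all integers `m`.

(2) If the multiples of every point of infinite order of `B`, over the algebraic closure, are dense
in `B`, then the number of the elements of `E` is at most `M ^ κ N`, where `N` is the number of the
points of `Γ` of height at most `C`.

The heights are divided by the degrees of the number fields. Moreover, products of elliptic curves
are examples. -/
theorem result :
    (∀ (K : Type) [Field K] [NumberField K] (n β : ℕ) (A : Fin β → AbV K n), DimensionLe A →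
      ∀ X W : Eqs K n β, ImageCodim A X W 2 → ∀ ε : ℝ, 0 < ε →
      ∃ (C c : ℝ) (κ : ℕ), ∀ (L : Type) [Field L] [NumberField L] [Algebra K L]
        (φ : L →ₐ[K] AlgebraicClosure K) (Γ : AddSubgroup (Pts A L)), Γ.FG → ∀ T M : ℝ, 1 ≤ T →
        M = c ^ (1 + Module.finrank ℤ Γ) * (1 + Real.log T) →
        FewOutsideCosets φ Γ C M κ (ExceptionalSet X W ε C Γ T) ∧
        (Simple A → ((ExceptionalSet X W ε C Γ T).ncard : ℝ) ≤
          M ^ κ * {P | P ∈ Γ ∧ height P ≤ C}.ncard)) ∧
    ∀ (K : Type) [Field K] [NumberField K] (n : ℕ), 3 ≤ n → ∀ (β : ℕ) (a b : Fin β → K),
      (∀ i, 4 * a i ^ 3 + 27 * b i ^ 2 ≠ 0) →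
      ∃ A : Fin β → AbV K n, DimensionLe A ∧ ∀ i, IsWeierstrass (A i) (a i) (b i) :=
  ⟨fun K _ _ n β A hA X W hc ε hε => polyS K n β A hA X W hc ε hε,
    fun K _ _ n hn β a b hd => exS K n hn β a b hd⟩

end Pool.Agent.Results.MP_9b9442_nt.PolylogExceptions
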